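import Mathlib

namespace Pool.Agent.Results.MP_51a8c5_co.AllDegrees

open Polynomial

/-- The connected set polynomial: the sum of `x ^ |S|` over the vertex sets `S` inducing a
(nonempty) connected subgraph. -/
noncomputable def csPoly {V : Type} [Fintype V] (G : SimpleGraph V) : ℝ[X] :=
  open Classical in
  ∑ S ∈ (Finset.univ : Finset (Finset V)).filter (fun S : Finset V => (G.induce (S : Set V)).Connected),
    X ^ S.card

/-- The node reliability: the sum of `p ^ |S| (1 - p) ^ (n - |S|)` over the vertex sets `S`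
inducing a (nonempty) connected subgraph, `n` being the number of vertices. -/
noncomputable def nodeRel {V : Type} [Fintype V] (G : SimpleGraph V) : ℝ[X] :=
  open Classical in
  ∑ S ∈ (Finset.univ : Finset (Finset V)).filter (fun S : Finset V => (G.induce (S : Set V)).Connected),
    X ^ S.card * (1 - X) ^ (Fintype.card V - S.card)

/-- Every complex root of the real polynomial `P` is real. -/
def AllRootsReal (P : ℝ[X]) : Prop :=
  ∀ z : ℂ, aeval z P = 0 → z.im = 0

/-- If all roots of the connected set polynomial are real, so are those of the node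
reliability. -/
theorem nodeRel_real {V : Type} [Fintype V] (G : SimpleGraph V) (h : AllRootsReal (csPoly G)) :
    AllRootsReal (nodeRel G) := by
  classical
  intro z hz
  by_cases h1 : z = 1
  · rw [h1]; simp
  have h1' : (1 - z) ≠ 0 := fun h => h1 (by linear_combination -h)
  have key : aeval z (nodeRel G) = (1 - z) ^ (Fintype.card V) * aeval (z / (1 - z)) (csPoly G) := by
    unfold nodeRel csPoly
    rw [map_sum, map_sum, Finset.mul_sum]
    apply Finset.sum_congr rfl
    intro S _
    have hc : S.card ≤ Fintype.card V := Finset.card_le_univ S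
    simp only [map_mul, map_pow, map_sub, map_one, aeval_X]
    rw [div_pow]
    have : (1 - z) ^ Fintype.card V = (1 - z) ^ (Fintype.card V - S.card) * (1 - z) ^ S.card := by
      rw [← pow_add, Nat.sub_add_cancel hc]
    rw [this]
    field_simp
  rw [key] at hz
  rcases mul_eq_zero.1 hz with h2 | h2
  · exact absurd h2 (pow_ne_zero _ h1')
  · have h3 := h _ h2
    set w := z / (1 - z) with hw
    have h4 : w * (1 - z) = z := by rw [hw]; field_simp
    have hwr : w = (w.re : ℂ) := Complex.ext (by simp) (by simpa using h3)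
    have h5 : z * (1 + w) = w := by linear_combination -h4
    have h6 : (1 + w) ≠ 0 := by
      intro h7
      rw [h7, mul_zero] at h5
      rw [← h5] at h7
      simp at h7
    have h8 : z = ((w.re / (1 + w.re) : ℝ) : ℂ) := by
      rw [hwr] at h5 h6
      push_cast
      rw [eq_div_iff h6]
      exact h5
    rw [h8]
    exact Complex.ofReal_im _

variable {ι : Type} (sz : ι → ℕ)

/-- The disjoint union of complete graphs of sizes `sz c`, `c : ι`. -/
def cliques : SimpleGraph (Σ c : ι, Fin (sz c)) where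
  Adj p q := p.1 = q.1 ∧ p ≠ q
  symm := ⟨fun _ _ h => ⟨h.1.symm, h.2.symm⟩⟩
  loopless := ⟨fun _ h => h.2 rfl⟩

theorem conn_iff (S : Finset (Σ c : ι, Fin (sz c))) :
    ((cliques sz).induce (S : Set (Σ c : ι, Fin (sz c)))).Connected ↔
      S.Nonempty ∧ ∃ c, ∀ p ∈ S, p.1 = c := by
  constructor
  · intro h
    obtain ⟨p0⟩ := h.nonempty
    refine ⟨⟨p0.1, p0.2⟩, p0.1.1, ?_⟩
    intro q hq
    have hr := h.preconnected p0 ⟨q, hq⟩
    obtain ⟨w⟩ := hr
    have : ∀ (a b : (S : Set (Σ c : ι, Fin (sz c)))),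
        ((cliques sz).induce (S : Set (Σ c : ι, Fin (sz c)))).Walk a b → a.1.1 = b.1.1 := by
      intro a b w
      induction w with
      | nil => rfl
      | cons hadj _ ih =>
        have := hadj.1
        exact this.trans ih
    exact (this _ _ w).symm
  · rintro ⟨⟨p0, hp0⟩, c, hc⟩
    have : Nonempty (S : Set (Σ c : ι, Fin (sz c))) := ⟨⟨p0, hp0⟩⟩
    refine ⟨fun a b => ?_⟩
    by_cases hab : a = b
    · rw [hab]
    · apply SimpleGraph.Adj.reachable
      refine ⟨(hc a.1 a.2).trans (hc b.1 b.2).symm, fun h => hab (Subtype.ext h)⟩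

theorem csPoly_cliques [Fintype ι] : csPoly (cliques sz) = ∑ c : ι, ((1 + X : ℝ[X]) ^ sz c - 1) := by
  classical
  have h1 : ∀ c : ι, ((1 + X : ℝ[X]) ^ sz c - 1) =
      ∑ T ∈ ((Finset.univ : Finset (Finset (Fin (sz c)))).filter (fun T => T.Nonempty)),
        (X : ℝ[X]) ^ T.card := by
    intro c
    have h2 : (1 + X : ℝ[X]) ^ sz c =
        ∑ T ∈ (Finset.univ : Finset (Finset (Fin (sz c)))), (X : ℝ[X]) ^ T.card := by
      have := Finset.sum_pow_mul_eq_add_pow (X : ℝ[X]) 1 (Finset.univ : Finset (Fin (sz c)))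
      rw [Finset.card_univ, Fintype.card_fin, Finset.powerset_univ] at this
      rw [add_comm, ← this]
      apply Finset.sum_congr rfl
      intro T _
      simp
    rw [h2, ← Finset.sum_filter_add_sum_filter_not (Finset.univ : Finset (Finset (Fin (sz c))))
      (fun T => T.Nonempty)]
    have h3 : (Finset.univ : Finset (Finset (Fin (sz c)))).filter (fun T => ¬ T.Nonempty) = {∅} := by
      ext T
      simp [Finset.not_nonempty_iff_eq_empty]
    rw [h3]
    simp
  rw [Finset.sum_congr rfl (fun c _ => h1 c), Finset.sum_sigma']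
  unfold csPoly
  symm
  apply Finset.sum_bij (fun (x : Σ c : ι, Finset (Fin (sz c))) _ =>
    x.2.map ⟨Sigma.mk x.1, sigma_mk_injective⟩)
  · rintro ⟨c, T⟩ hx
    simp only [Finset.mem_sigma, Finset.mem_filter, Finset.mem_univ, true_and] at hx
    simp only [Finset.mem_filter, Finset.mem_univ, true_and]
    rw [conn_iff]
    refine ⟨by simpa using hx, c, ?_⟩
    intro p hp
    rw [Finset.mem_map] at hp
    obtain ⟨t, -, rfl⟩ := hp
    rfl
  · rintro ⟨c, T⟩ hx ⟨c', T'⟩ hx' h
    simp only [Finset.mem_sigma, Finset.mem_filter, Finset.mem_univ, true_and] at hx hx'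
    dsimp only at h
    obtain ⟨t, ht⟩ := hx
    have h4 : (⟨c, t⟩ : Σ c : ι, Fin (sz c)) ∈ T'.map ⟨Sigma.mk c', sigma_mk_injective⟩ := by
      rw [← h]
      exact Finset.mem_map_of_mem _ ht
    rw [Finset.mem_map] at h4
    obtain ⟨t', -, ht'⟩ := h4
    have hcc : c' = c := congrArg Sigma.fst ht'
    subst hcc
    rw [Finset.map_injective _ h]
  · intro S hS
    simp only [Finset.mem_filter, Finset.mem_univ, true_and] at hS
    rw [conn_iff] at hS
    obtain ⟨⟨p0, hp0⟩, c, hc⟩ := hS
    have h5 : ∀ p ∈ S, ∃ t, p = ⟨c, t⟩ := by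
      intro p hp
      obtain ⟨c', t⟩ := p
      have : c' = c := hc _ hp
      subst this
      exact ⟨t, rfl⟩
    refine ⟨⟨c, Finset.univ.filter (fun t => (⟨c, t⟩ : Σ c : ι, Fin (sz c)) ∈ S)⟩, ?_, ?_⟩
    · simp only [Finset.mem_sigma, Finset.mem_filter, Finset.mem_univ, true_and]
      obtain ⟨t, ht⟩ := h5 p0 hp0
      refine ⟨t, ?_⟩
      simp only [Finset.mem_filter, Finset.mem_univ, true_and]
      rw [← ht]
      exact hp0
    · ext p
      rw [Finset.mem_map]
      constructor
      · rintro ⟨t, ht, rfl⟩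
        simpa using ht
      · intro hp
        obtain ⟨t, rfl⟩ := h5 p hp
        exact ⟨t, by simpa using hp, rfl⟩
  · rintro ⟨c, T⟩ _
    simp

/-- Coefficients of `(Y - 1) (Y + a) ^ m` in positive degree are nonnegative when `m ≤ a`. -/
theorem coeff_nonneg (m a : ℕ) (h : m ≤ a) (j : ℕ) :
    0 ≤ (((X : ℤ[X]) - 1) * (X + C (a : ℤ)) ^ m).coeff (j + 1) := by
  rw [sub_mul, one_mul, coeff_sub, coeff_X_mul, coeff_X_add_C_pow, coeff_X_add_C_pow]
  rcases lt_trichotomy j m with hj | hj | hj
  · have h1 : (m.choose (j + 1)) * (j + 1) = m.choose j * (m - j) := Nat.choose_succ_right_eq m j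
    have h2 : m.choose (j + 1) ≤ m.choose j * a := by
      calc m.choose (j + 1) ≤ m.choose (j + 1) * (j + 1) := Nat.le_mul_of_pos_right _ (by omega)
        _ = m.choose j * (m - j) := h1
        _ ≤ m.choose j * a := Nat.mul_le_mul_left _ (by omega)
    have h3 : (a : ℤ) ^ (m - j) = (a : ℤ) ^ (m - (j + 1)) * a := by
      rw [← pow_succ]; congr 1; omega
    rw [h3]
    have h4 : ((m.choose (j + 1) : ℕ) : ℤ) ≤ (m.choose j : ℕ) * (a : ℤ) := by exact_mod_cast h2
    have h5 : (0 : ℤ) ≤ (a : ℤ) ^ (m - (j + 1)) := by positivity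
    nlinarith [mul_le_mul_of_nonneg_left h4 h5]
  · subst hj
    simp
  · rw [Nat.choose_eq_zero_of_lt hj, Nat.choose_eq_zero_of_lt (by omega : m < j + 1)]
    simp

/-- The disconnected graphs used in the result. -/
theorem exists_graph (m : ℕ) (hm : 1 ≤ m) : ∃ (ι : Type) (_ : Fintype ι) (sz : ι → ℕ),
    (∃ c c' : ι, c ≠ c' ∧ 0 < sz c ∧ 0 < sz c') ∧
    ∑ c : ι, ((1 + X : ℝ[X]) ^ sz c - 1) = X * (X + C ((m : ℝ) + 2)) ^ m := by
  classical
  set a : ℕ := m + 1 with ha
  set Q : ℤ[X] := ((X : ℤ[X]) - 1) * (X + C (a : ℤ)) ^ m with hQ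
  have hdeg : Q.natDegree < m + 1 + 1 := by
    rw [hQ]
    refine Nat.lt_succ_of_le (natDegree_mul_le.trans ?_)
    have h1 : ((X : ℤ[X]) - 1).natDegree ≤ 1 := by
      have := natDegree_X_sub_C_le (1 : ℤ)
      simpa using this
    have h2 : ((X + C (a : ℤ)) ^ m : ℤ[X]).natDegree ≤ m := by
      refine natDegree_pow_le.trans ?_
      rw [natDegree_X_add_C, mul_one]
    omega
  let n : ℕ → ℕ := fun j => (Q.coeff (j + 1)).toNat
  have hn : ∀ j, ((n j : ℕ) : ℤ) = Q.coeff (j + 1) := fun j =>
    Int.toNat_of_nonneg (coeff_nonneg m a (by omega) j)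
  have htop : n m = 1 := by
    have : Q.coeff (m + 1) = 1 := by
      rw [hQ, sub_mul, one_mul, coeff_sub, coeff_X_mul, coeff_X_add_C_pow, coeff_X_add_C_pow]
      simp
    have h2 := hn m
    rw [this] at h2
    exact_mod_cast h2
  have hbot : 1 ≤ n 0 := by
    have h2 := hn 0
    have h3 : Q.coeff (0 + 1) = (a : ℤ) ^ m - m * (a : ℤ) ^ (m - 1) := by
      rw [hQ, sub_mul, one_mul, coeff_sub, coeff_X_mul, coeff_X_add_C_pow, coeff_X_add_C_pow]
      simp
      ring
    rw [h3] at h2
    have h4 : (a : ℤ) ^ m = (a : ℤ) ^ (m - 1) * a := by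
      rw [← pow_succ]; congr 1; omega
    rw [h4, ha] at h2
    have h5 : ((n 0 : ℕ) : ℤ) = ((m + 1 : ℕ) : ℤ) ^ (m - 1) := by
      rw [h2]; push_cast; ring
    have h6 : (0 : ℤ) < ((m + 1 : ℕ) : ℤ) ^ (m - 1) := by positivity
    omega
  refine ⟨Σ j : Fin (m + 1), Fin (n j), inferInstance, fun c => (c.1 : ℕ) + 1, ?_, ?_⟩
  · refine ⟨⟨⟨0, by omega⟩, ⟨0, hbot⟩⟩, ⟨⟨m, by omega⟩, ⟨0, by rw [htop]; exact one_pos⟩⟩, ?_,
      Nat.succ_pos _, Nat.succ_pos _⟩
    intro h
    have := congrArg (fun x : (Σ j : Fin (m + 1), Fin (n j)) => (x.1 : ℕ)) h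
    simp only at this
    omega
  · -- evaluate `Q` at `1 + X`
    have hsum : Q = ∑ j ∈ Finset.range (m + 1 + 1), C (Q.coeff j) * X ^ j :=
      as_sum_range_C_mul_X_pow' Q hdeg
    have hev : ∀ y : ℝ[X], aeval y Q = ∑ j ∈ Finset.range (m + 1), ((n j : ℕ) : ℝ[X]) * y ^ (j + 1)
        + ((Q.coeff 0 : ℤ) : ℝ[X]) := by
      intro y
      rw [hsum]
      rw [map_sum, Finset.sum_range_succ']
      simp only [map_mul, map_pow, aeval_X, aeval_C, pow_zero, mul_one]
      rw [← hsum]
      congr 1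
      apply Finset.sum_congr rfl
      intro j _
      rw [← hn j]
      simp
    have hy := hev (1 + X)
    have h1 := hev 1
    have hy2 : aeval (1 + X : ℝ[X]) Q = X * (X + C ((m : ℝ) + 2)) ^ m := by
      rw [hQ]
      simp only [map_mul, map_pow, map_sub, map_add, map_one, aeval_X, aeval_C]
      rw [ha]
      push_cast
      congr 1
      · ring
      · congr 1
        have hC2 : (C (2 : ℝ) : ℝ[X]) = 2 := map_ofNat C 2
        simp only [map_add, hC2, algebraMap_int_eq, eq_intCast, Int.cast_natCast, map_natCast]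
        push_cast
        ring
    have h12 : aeval (1 : ℝ[X]) Q = 0 := by
      rw [hQ]
      simp
    rw [h12] at h1
    rw [hy2] at hy
    rw [Fintype.sum_sigma]
    simp only [Finset.sum_const, Finset.card_univ, Fintype.card_fin, nsmul_eq_mul]
    rw [Finset.sum_range] at hy h1
    rw [hy]
    simp only [mul_sub, mul_one, Finset.sum_sub_distrib]
    simp only [one_pow, mul_one] at h1
    linear_combination h1

/-- For every `d` there is a disconnected graph whose connected set polynomial has degree at least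
`d`, such that all roots of the connected set polynomial and all roots of the node reliability are
real. -/
theorem result (d : ℕ) : ∃ (V : Type) (_ : Fintype V) (G : SimpleGraph V),
    ¬ G.Preconnected ∧ d ≤ (csPoly G).natDegree ∧
      AllRootsReal (csPoly G) ∧ AllRootsReal (nodeRel G) := by
  classical
  obtain ⟨ι, _, sz, ⟨c, c', hcc, h0, h0'⟩, hs⟩ := exists_graph (d + 1) (by omega)
  have hP : csPoly (cliques sz) = X * (X + C (((d + 1 : ℕ) : ℝ) + 2)) ^ (d + 1) := by
    rw [csPoly_cliques, hs]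
  have hreal : AllRootsReal (csPoly (cliques sz)) := by
    intro z hz
    rw [hP] at hz
    simp only [map_mul, map_pow, map_add, aeval_X, aeval_C] at hz
    rcases mul_eq_zero.1 hz with h1 | h1
    · rw [h1]; simp
    · have h2 := pow_eq_zero_iff (by omega : d + 1 ≠ 0) |>.1 h1
      have h3 : z = ((-(((d + 1 : ℕ) : ℝ) + 2) : ℝ) : ℂ) := by
        have e1 : (algebraMap ℝ ℂ) ((d + 1 : ℕ) : ℝ) = ((((d + 1 : ℕ) : ℝ) : ℝ) : ℂ) := rfl
        have e2 : (algebraMap ℝ ℂ) (2 : ℝ) = ((2 : ℝ) : ℂ) := rfl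
        rw [e1, e2] at h2
        rw [Complex.ofReal_neg, Complex.ofReal_add]
        linear_combination h2
      rw [h3]
      exact Complex.ofReal_im _
  refine ⟨_, inferInstance, cliques sz, ?_, ?_, hreal, nodeRel_real _ hreal⟩
  · intro h
    obtain ⟨w⟩ := h ⟨c, ⟨0, h0⟩⟩ ⟨c', ⟨0, h0'⟩⟩
    have : ∀ (a b : Σ c : ι, Fin (sz c)), (cliques sz).Walk a b → a.1 = b.1 := by
      intro a b w
      induction w with
      | nil => rfl
      | cons hadj _ ih => exact hadj.1.trans ih
    exact hcc (this _ _ w)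
  · rw [hP, natDegree_mul X_ne_zero (pow_ne_zero _ (X_add_C_ne_zero _)), natDegree_pow,
      natDegree_X_add_C, natDegree_X]
    omega

end Pool.Agent.Results.MP_51a8c5_co.AllDegrees
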